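import Pool.Agent.W598.IA.Stm

/-!
# Centralizers of nontrivial elements of the semidirect product are metabelian
-/

set_option autoImplicit false

namespace Pool.Agent.W417.IACent

open Pool.Agent.W598.IA

theorem det_entries (g : S2) : g.1 0 0 * g.1 1 1 - g.1 0 1 * g.1 1 0 = 1 := by
  have := g.2
  rwa [Matrix.det_fin_two] at this

/-- Commuting matrices, entries. -/
theorem comm_iff (g h : S2) : g * h = h * g ↔
    g.1 0 1 * h.1 1 0 = h.1 0 1 * g.1 1 0 ∧
    g.1 0 1 * (h.1 0 0 - h.1 1 1) = h.1 0 1 * (g.1 0 0 - g.1 1 1) ∧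
    g.1 1 0 * (h.1 0 0 - h.1 1 1) = h.1 1 0 * (g.1 0 0 - g.1 1 1) := by
  constructor
  · intro e
    have e2 := congrArg Subtype.val e
    rw [Matrix.SpecialLinearGroup.coe_mul, Matrix.SpecialLinearGroup.coe_mul] at e2
    have e00 := congrFun (congrFun e2 0) 0
    have e01 := congrFun (congrFun e2 0) 1
    have e10 := congrFun (congrFun e2 1) 0
    simp only [Matrix.mul_apply, Fin.sum_univ_two] at e00 e01 e10
    refine ⟨by linarith, by linarith, by linarith⟩
  · rintro ⟨e1, e2, e3⟩
    apply Subtype.ext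
    rw [Matrix.SpecialLinearGroup.coe_mul, Matrix.SpecialLinearGroup.coe_mul]
    ext i j
    fin_cases i <;> fin_cases j <;> simp only [Matrix.mul_apply, Fin.sum_univ_two] <;>
      simp <;> linarith

theorem scalar_cases (Q : S2) (h1 : Q.1 0 1 = 0) (h2 : Q.1 1 0 = 0) (h3 : Q.1 0 0 - Q.1 1 1 = 0) :
    Q * Q = 1 := by
  have hd := det_entries Q
  rw [h1, h2] at hd
  have h4 : Q.1 1 1 = Q.1 0 0 := by linarith
  rw [h4] at hd
  apply Subtype.ext
  rw [Matrix.SpecialLinearGroup.coe_mul, Matrix.SpecialLinearGroup.coe_one]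
  ext i j
  fin_cases i <;> fin_cases j <;> simp [Matrix.mul_apply, Fin.sum_univ_two, h1, h2, h4] <;> linarith

theorem comm_trans_S2 {Q g h : S2} (hQ : Q * Q ≠ 1) (hg : Q * g = g * Q) (hh : Q * h = h * Q) :
    g * h = h * g := by
  rw [comm_iff] at hg hh ⊢
  obtain ⟨a1, a2, a3⟩ := hg
  obtain ⟨b1, b2, b3⟩ := hh
  have hne : ¬ (Q.1 0 1 = 0 ∧ Q.1 1 0 = 0 ∧ Q.1 0 0 - Q.1 1 1 = 0) := fun ⟨h1, h2, h3⟩ =>
    hQ (scalar_cases Q h1 h2 h3)
  generalize Q.1 0 1 = p at *
  generalize Q.1 1 0 = q at *
  generalize Q.1 0 0 - Q.1 1 1 = r at *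
  generalize g.1 0 1 = a at *
  generalize g.1 1 0 = b at *
  generalize g.1 0 0 - g.1 1 1 = c at *
  generalize h.1 0 1 = d at *
  generalize h.1 1 0 = e at *
  generalize h.1 0 0 - h.1 1 1 = f at *
  by_cases hp : p = 0
  · by_cases hq : q = 0
    · have hr : r ≠ 0 := fun h => hne ⟨hp, hq, h⟩
      subst hp hq
      have ha : a = 0 := by
        have : a * r = 0 := by linarith
        exact (mul_eq_zero.mp this).resolve_right hr
      have hb : b = 0 := by
        have : b * r = 0 := by linarith
        exact (mul_eq_zero.mp this).resolve_right hr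
      have hd : d = 0 := by
        have : d * r = 0 := by linarith
        exact (mul_eq_zero.mp this).resolve_right hr
      have he : e = 0 := by
        have : e * r = 0 := by linarith
        exact (mul_eq_zero.mp this).resolve_right hr
      subst ha hb hd he
      simp
    · have g1 : a * e = d * b := mul_left_cancel₀ hq (by linear_combination (-e) * a1 + b * b1)
      have g3 : b * f = e * c := mul_left_cancel₀ hq (by linear_combination b * b3 - e * a3)
      have g2 : a * f = d * c := mul_left_cancel₀ hq (by linear_combination (-f) * a1 + c * b1 + p * g3)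
      exact ⟨g1, g2, g3⟩
  · have g1 : a * e = d * b := mul_left_cancel₀ hp (by linear_combination a * b1 - d * a1)
    have g2 : a * f = d * c := mul_left_cancel₀ hp (by linear_combination a * b2 - d * a2)
    have g3 : b * f = e * c := mul_left_cancel₀ hp (by linear_combination f * a1 - c * b1 + q * g2)
    exact ⟨g1, g2, g3⟩

/-- entries of a matrix fixing a nonzero vector -/
theorem fix_entries (α : S2) (a : Z2) (ha : a ≠ 0) (h : lin α a = a) :
    α.1 1 1 = 2 - α.1 0 0 ∧ (α.1 0 0 - 1) * a 0 + α.1 0 1 * a 1 = 0 ∧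
      α.1 1 0 * a 0 - (α.1 0 0 - 1) * a 1 = 0 := by
  have hd := det_entries α
  have h0 := congrFun h 0
  have h1 := congrFun h 1
  simp only [lin, Matrix.mulVec, dotProduct, Fin.sum_univ_two] at h0 h1
  have e1 : ((α.1 0 0 - 1) * (α.1 1 1 - 1) - α.1 0 1 * α.1 1 0) * a 0 = 0 := by
    linear_combination (α.1 1 1 - 1) * h0 - α.1 0 1 * h1
  have e2 : ((α.1 0 0 - 1) * (α.1 1 1 - 1) - α.1 0 1 * α.1 1 0) * a 1 = 0 := by
    linear_combination (α.1 0 0 - 1) * h1 - α.1 1 0 * h0
  have e3 : (α.1 0 0 - 1) * (α.1 1 1 - 1) - α.1 0 1 * α.1 1 0 = 0 := by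
    by_contra hne
    apply ha
    funext i
    fin_cases i
    · exact (mul_eq_zero.mp e1).resolve_left hne
    · exact (mul_eq_zero.mp e2).resolve_left hne
  have e4 : α.1 1 1 = 2 - α.1 0 0 := by linear_combination hd - e3
  refine ⟨e4, by linear_combination h0, ?_⟩
  rw [e4] at h1
  linear_combination h1

theorem fix_comm (α β : S2) (a : Z2) (ha : a ≠ 0) (h1 : lin α a = a) (h2 : lin β a = a) :
    α * β = β * α := by
  obtain ⟨e1, e2, e3⟩ := fix_entries α a ha h1
  obtain ⟨f1, f2, f3⟩ := fix_entries β a ha h2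
  rw [comm_iff, e1, f1]
  generalize α.1 0 0 = p at *
  generalize α.1 0 1 = q at *
  generalize α.1 1 0 = r at *
  generalize β.1 0 0 = p' at *
  generalize β.1 0 1 = q' at *
  generalize β.1 1 0 = r' at *
  by_cases h0 : a 1 = 0
  · have h3 : a 0 ≠ 0 := by
      intro h3
      apply ha
      funext i
      fin_cases i
      · exact h3
      · exact h0
    rw [h0] at e2 e3 f2 f3
    have g1 : p - 1 = 0 := by
      have : (p - 1) * a 0 = 0 := by linear_combination e2
      exact (mul_eq_zero.mp this).resolve_right h3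
    have g2 : r = 0 := by
      have : r * a 0 = 0 := by linear_combination e3
      exact (mul_eq_zero.mp this).resolve_right h3
    have g3 : p' - 1 = 0 := by
      have : (p' - 1) * a 0 = 0 := by linear_combination f2
      exact (mul_eq_zero.mp this).resolve_right h3
    have g4 : r' = 0 := by
      have : r' * a 0 = 0 := by linear_combination f3
      exact (mul_eq_zero.mp this).resolve_right h3
    have g5 : p = 1 := by linarith
    have g6 : p' = 1 := by linarith
    subst g2 g4 g5 g6
    simp
  · have g3 : r * (p' - 1) = r' * (p - 1) :=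
      mul_right_cancel₀ h0 (by linear_combination r' * e3 - r * f3)
    have g2 : q * (p' - 1) = q' * (p - 1) :=
      mul_right_cancel₀ h0 (by linear_combination (p' - 1) * e2 - (p - 1) * f2)
    have g1 : q * r' = q' * r := by
      apply mul_right_cancel₀ h0
      linear_combination r' * e2 - r * f2 + a 0 * g3
    refine ⟨g1, ?_, ?_⟩
    · linear_combination 2 * g2
    · linear_combination 2 * g3

theorem cm_eq_one {A : Type} [Group A] {a b : A} (h : a * b = b * a) : cm a b = 1 := by
  unfold cm
  rw [h]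
  group

theorem main : Pool.Agent.W598.IA.S_CENT := by
  intro F _ ρ hρ htf g hg
  have key : ∀ x y : SD ρ, Commute x g → Commute y g → x.l * y.l = y.l * x.l := by
    intro x y hx hy
    have hxl : x.l * g.l = g.l * x.l := congrArg SD.l hx.eq
    have hyl : y.l * g.l = g.l * y.l := congrArg SD.l hy.eq
    have hxt : x.t + lin (ρ x.l) g.t = g.t + lin (ρ g.l) x.t := congrArg SD.t hx.eq
    have hyt : y.t + lin (ρ y.l) g.t = g.t + lin (ρ g.l) y.t := congrArg SD.t hy.eq
    by_cases hγ : g.l = 1
    · have hgt : g.t ≠ 0 := by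
        intro h
        apply hg
        exact SD.ext hγ h
      rw [hγ, map_one, lin_one] at hxt hyt
      have h1 : lin (ρ x.l) g.t = g.t := by
        rw [add_comm g.t] at hxt
        exact add_left_cancel hxt
      have h2 : lin (ρ y.l) g.t = g.t := by
        rw [add_comm g.t] at hyt
        exact add_left_cancel hyt
      apply hρ
      rw [map_mul, map_mul]
      exact fix_comm _ _ _ hgt h1 h2
    · apply hρ
      rw [map_mul, map_mul]
      apply comm_trans_S2 (Q := ρ g.l)
      · intro h
        apply hγ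
        apply htf g.l 2 two_ne_zero
        apply hρ
        rw [map_pow, map_one, pow_two]
        exact h
      · rw [← map_mul, ← map_mul, hxl]
      · rw [← map_mul, ← map_mul, hyl]
  have hl : ∀ x y : SD ρ, Commute x g → Commute y g → (cm x y).l = 1 := by
    intro x y hx hy
    show x.l * y.l * x.l⁻¹ * y.l⁻¹ = 1
    rw [key x y hx hy]
    group
  intro x y z w hx hy hz hw
  apply cm_eq_one
  have h1 := hl x y hx hy
  have h2 := hl z w hz hw
  apply SD.ext
  · rw [SD.mul_l, SD.mul_l, h1, h2]
  · rw [SD.mul_t, SD.mul_t, h1, h2, map_one, lin_one, lin_one, add_comm]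

end Pool.Agent.W417.IACent
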