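import Pool.Agent.W598.IA.Stm

/-!
# Generators of the fibre product
-/

set_option autoImplicit false

namespace Pool.Agent.W417.IAGen

open Pool.Agent.W598.IA

theorem main : Pool.Agent.W598.IA.S_GEN := by
  intro F _ X R hX
  set C : Subgroup (F × F) := Subgroup.closure ({p : F × F | ∃ x ∈ X, p = (x, x)} ∪
    {p : F × F | ∃ r ∈ R, p = (r, 1)}) with hC
  apply le_antisymm
  · rw [hC, Subgroup.closure_le]
    rintro p (⟨x, hx, rfl⟩ | ⟨r, hr, rfl⟩)
    · show (x, x) ∈ fib (Subgroup.normalClosure R)
      rw [mem_fib]
      simp only [mul_inv_cancel]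
      exact Subgroup.one_mem _
    · show (r, 1) ∈ fib (Subgroup.normalClosure R)
      rw [mem_fib]
      simp only [inv_one, mul_one]
      exact Subgroup.subset_normalClosure hr
  · have hdiag : ∀ g : F, (g, g) ∈ C := by
      intro g
      have hg : g ∈ Subgroup.closure X := by rw [hX]; trivial
      induction hg using Subgroup.closure_induction with
      | mem x hx => exact Subgroup.subset_closure (Or.inl ⟨x, hx, rfl⟩)
      | one => exact C.one_mem
      | mul x y _ _ h1 h2 => exact C.mul_mem h1 h2
      | inv x _ h1 => exact C.inv_mem h1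
    set N : Subgroup F := C.comap (MonoidHom.inl F F) with hN
    have hmemN : ∀ u, u ∈ N ↔ (u, 1) ∈ C := fun u => Iff.rfl
    have hnorm : N.Normal := by
      constructor
      intro u hu g
      rw [hmemN] at hu ⊢
      have h1 : ((g * u * g⁻¹, 1) : F × F) = (g, g) * (u, 1) * (g, g)⁻¹ := by
        ext
        · simp
        · simp
      rw [h1]
      exact C.mul_mem (C.mul_mem (hdiag g) hu) (C.inv_mem (hdiag g))
    have hle : Subgroup.normalClosure R ≤ N := by
      apply Subgroup.normalClosure_le_normal
      intro r hr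
      exact Subgroup.subset_closure (Or.inr ⟨r, hr, rfl⟩)
    rintro ⟨u, v⟩ huv
    rw [mem_fib] at huv
    have h1 := (hmemN _).1 (hle huv)
    have h2 := C.mul_mem h1 (hdiag v)
    simpa using h2

end Pool.Agent.W417.IAGen
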