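import Pool.Agent.W598.IA.Stm

/-!
# Free subgroups of finite index of the free group of rank two
-/

set_option autoImplicit false

namespace Pool.Agent.W417.IASch

open Pool.Agent.W598.IA

/-- the free group of rank two -/
abbrev G2 : Type := FreeGroup (Fin 2)

/-- first generator -/
def ga : G2 := FreeGroup.of 0

/-- second generator -/
def gb : G2 := FreeGroup.of 1

/-- the embedding -/
def th (k : ℕ) : FreeGroup (Fin (k + 1)) →* G2 :=
  FreeGroup.lift (fun j : Fin (k + 1) => if j.1 < k then ga ^ (j.1 : ℤ) * gb * (ga ^ (j.1 : ℤ))⁻¹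
    else ga ^ (k : ℤ))

section
variable (k : ℕ)

/-- the generators `c i` -/
def cc (i : ℤ) : FreeGroup (Fin (k + 1)) :=
  if h : i.toNat < k then FreeGroup.of ⟨i.toNat, by omega⟩ else 1

/-- the last generator -/
def dd : FreeGroup (Fin (k + 1)) := FreeGroup.of (Fin.last k)

/-- the twisted generators -/
def bet (n : ℤ) : FreeGroup (Fin (k + 1)) := dd k ^ (n / k) * cc k (n % k) * (dd k ^ (n / k))⁻¹

/-- the action of `a` -/
def PA : Equiv.Perm (ℤ × FreeGroup (Fin (k + 1))) where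
  toFun x := (x.1 - 1, x.2)
  invFun x := (x.1 + 1, x.2)
  left_inv x := by ext <;> simp
  right_inv x := by ext <;> simp

/-- the action of `b` -/
def PB : Equiv.Perm (ℤ × FreeGroup (Fin (k + 1))) where
  toFun x := (x.1, bet k x.1 * x.2)
  invFun x := (x.1, (bet k x.1)⁻¹ * x.2)
  left_inv x := by ext <;> simp
  right_inv x := by ext <;> simp

/-- the action of the free group of rank two -/
def rh : G2 →* Equiv.Perm (ℤ × FreeGroup (Fin (k + 1))) := FreeGroup.lift ![PA k, PB k]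

theorem rh_a : rh k ga = PA k := by
  unfold rh ga
  rw [FreeGroup.lift_apply_of]
  rfl

theorem rh_b : rh k gb = PB k := by
  unfold rh gb
  rw [FreeGroup.lift_apply_of]
  rfl

theorem PA_zpow (i : ℤ) (x : ℤ × FreeGroup (Fin (k + 1))) : (PA k ^ i) x = (x.1 - i, x.2) := by
  induction i with
  | zero => simp
  | succ i ih =>
    rw [zpow_add_one, Equiv.Perm.mul_apply]
    have h1 : ∀ y : ℤ × FreeGroup (Fin (k + 1)), ((PA k ^ (i : ℤ)) y = (y.1 - i, y.2)) := by
      intro y
      rw [zpow_natCast]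
      clear ih
      induction i generalizing y with
      | zero => simp
      | succ i ih =>
        rw [pow_succ, Equiv.Perm.mul_apply, ih]
        ext
        · show y.1 - 1 - (i : ℤ) = y.1 - ((i + 1 : ℕ) : ℤ)
          push_cast; ring
        · rfl
    rw [h1]
    ext
    · show x.1 - 1 - (i : ℤ) = x.1 - ((i : ℤ) + 1)
      ring
    · rfl
  | pred i ih =>
    have h1 : ∀ (i : ℕ) (y : ℤ × FreeGroup (Fin (k + 1))),
        ((PA k ^ (-(i : ℤ))) y = (y.1 + i, y.2)) := by
      intro i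
      induction i with
      | zero => intro y; simp
      | succ i ih =>
        intro y
        have : (-((i + 1 : ℕ) : ℤ)) = -(i : ℤ) - 1 := by push_cast; ring
        rw [this, zpow_sub_one, Equiv.Perm.mul_apply, ih]
        ext
        · show y.1 + 1 + (i : ℤ) = y.1 + ((i + 1 : ℕ) : ℤ)
          push_cast; ring
        · rfl
    have h2 : (-(i : ℤ) - 1) = -((i + 1 : ℕ) : ℤ) := by push_cast; ring
    rw [h2, h1]
    ext
    · show x.1 + ((i + 1 : ℕ) : ℤ) = x.1 - -((i + 1 : ℕ) : ℤ)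
      ring
    · rfl

end

theorem th_of {k : ℕ} (j : Fin (k + 1)) : th k (FreeGroup.of j) =
    if j.1 < k then ga ^ (j.1 : ℤ) * gb * (ga ^ (j.1 : ℤ))⁻¹ else ga ^ (k : ℤ) := by
  unfold th
  rw [FreeGroup.lift_apply_of]

/-- equivariance -/
def Eqv (k : ℕ) (g : FreeGroup (Fin (k + 1))) : Prop := ∀ (q : ℤ) (f : FreeGroup (Fin (k + 1))),
  ∃ (q' : ℤ) (f' : FreeGroup (Fin (k + 1))), rh k (th k g) (q * k, f) = (q' * k, f') ∧
    (dd k ^ q')⁻¹ * f' = g * ((dd k ^ q)⁻¹ * f)

theorem eqv (k : ℕ) (hk : 1 ≤ k) (g : FreeGroup (Fin (k + 1))) : Eqv k g := by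
  have hk0 : (0 : ℤ) < k := by exact_mod_cast hk
  have hbet : ∀ (q : ℤ) (j : Fin (k + 1)) (hj : j.1 < k),
      bet k (q * k + j.1) = dd k ^ q * FreeGroup.of j * (dd k ^ q)⁻¹ := by
    intro q j hj
    have hj' : (j.1 : ℤ) < k := by exact_mod_cast hj
    have h1 : (q * k + j.1 : ℤ) / k = q := by
      rw [add_comm, Int.add_mul_ediv_right _ _ hk0.ne', Int.ediv_eq_zero_of_lt (by positivity) hj',
        zero_add]
    have h2 : (q * k + j.1 : ℤ) % k = j.1 := by
      rw [add_comm, Int.add_mul_emod_self_right, Int.emod_eq_of_lt (by positivity) hj']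
    unfold bet
    rw [h1, h2]
    have h3 : cc k (j.1 : ℤ) = FreeGroup.of j := by
      unfold cc
      rw [dif_pos (by simpa using hj)]
      congr 1
    rw [h3]
  induction g using FreeGroup.induction_on with
  | C1 =>
    intro q f
    refine ⟨q, f, ?_, by rw [one_mul]⟩
    rw [map_one, map_one]
    rfl
  | of j =>
    intro q f
    rw [th_of]
    by_cases hj : j.1 < k
    · rw [if_pos hj]
      refine ⟨q, bet k (q * k + j.1) * f, ?_, ?_⟩
      · rw [map_mul, map_mul, map_inv, map_zpow, rh_a, rh_b, ← zpow_neg, Equiv.Perm.mul_apply,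
          Equiv.Perm.mul_apply, PA_zpow, PA_zpow]
        have h1 : (q * k - -(j.1 : ℤ) : ℤ) = q * k + j.1 := by ring
        ext
        · show (q * k - -(j.1 : ℤ)) - (j.1 : ℤ) = q * k
          ring
        · show bet k (q * k - -(j.1 : ℤ)) * f = _
          rw [h1]
      · rw [hbet q j hj]
        group
    · rw [if_neg hj]
      have hjl : j = Fin.last k := by
        apply Fin.ext
        have := j.2
        simp only [Fin.val_last]
        omega
      refine ⟨q - 1, f, ?_, ?_⟩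
      · rw [map_zpow, rh_a, PA_zpow]
        ext
        · show q * k - (k : ℤ) = (q - 1) * k
          ring
        · rfl
      · rw [hjl]
        show (dd k ^ (q - 1))⁻¹ * f = dd k * ((dd k ^ q)⁻¹ * f)
        rw [zpow_sub_one]
        group
  | inv_of j _ =>
    intro q f
    rw [map_inv, th_of]
    by_cases hj : j.1 < k
    · rw [if_pos hj]
      refine ⟨q, (bet k (q * k + j.1))⁻¹ * f, ?_, ?_⟩
      · have h0 : (ga ^ (j.1 : ℤ) * gb * (ga ^ (j.1 : ℤ))⁻¹)⁻¹ =
            ga ^ (j.1 : ℤ) * gb⁻¹ * (ga ^ (j.1 : ℤ))⁻¹ := by group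
        rw [h0, map_mul, map_mul, map_inv, map_inv, map_zpow, rh_a, rh_b, ← zpow_neg,
          Equiv.Perm.mul_apply, Equiv.Perm.mul_apply, PA_zpow, PA_zpow]
        have h1 : (q * k - -(j.1 : ℤ) : ℤ) = q * k + j.1 := by ring
        ext
        · show (q * k - -(j.1 : ℤ)) - (j.1 : ℤ) = q * k
          ring
        · show (bet k (q * k - -(j.1 : ℤ)))⁻¹ * f = _
          rw [h1]
      · rw [hbet q j hj]
        group
    · rw [if_neg hj]
      have hjl : j = Fin.last k := by
        apply Fin.ext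
        have := j.2
        simp only [Fin.val_last]
        omega
      refine ⟨q + 1, f, ?_, ?_⟩
      · rw [← zpow_neg, map_zpow, rh_a, PA_zpow]
        ext
        · show q * k - -(k : ℤ) = (q + 1) * k
          ring
        · rfl
      · rw [hjl]
        show (dd k ^ (q + 1))⁻¹ * f = (dd k)⁻¹ * ((dd k ^ q)⁻¹ * f)
        rw [zpow_add_one]
        group
  | mul x y hx hy =>
    intro q f
    obtain ⟨q1, f1, h1, h2⟩ := hy q f
    obtain ⟨q2, f2, h3, h4⟩ := hx q1 f1
    refine ⟨q2, f2, ?_, ?_⟩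
    · rw [map_mul, map_mul, Equiv.Perm.mul_apply, h1, h3]
    · rw [h4, h2, mul_assoc]

theorem th_injective (k : ℕ) (hk : 1 ≤ k) : Function.Injective (th k) := by
  rw [injective_iff_map_eq_one]
  intro g hg
  obtain ⟨q', f', h1, h2⟩ := eqv k hk g 0 1
  rw [hg, map_one] at h1
  have h3 : ((0 : ℤ) * k, (1 : FreeGroup (Fin (k + 1)))) = (q' * k, f') := h1
  have h4 : (0 : ℤ) * k = q' * k := congrArg Prod.fst h3
  have h5 : (1 : FreeGroup (Fin (k + 1))) = f' := congrArg Prod.snd h3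
  have hk0 : (k : ℤ) ≠ 0 := by
    have : (0 : ℤ) < k := by exact_mod_cast hk
    exact this.ne'
  have h6 : q' = 0 := by
    rw [zero_mul] at h4
    exact (mul_eq_zero.1 h4.symm).resolve_right hk0
  rw [← h5, h6] at h2
  simpa using h2.symm

theorem ak_mem (k : ℕ) (q : ℤ) : ga ^ (q * k) ∈ (th k).range := by
  have h1 : ga ^ (k : ℤ) ∈ (th k).range := by
    refine ⟨FreeGroup.of (Fin.last k), ?_⟩
    rw [th_of, if_neg (by simp)]
  rw [mul_comm, zpow_mul]
  exact Subgroup.zpow_mem _ h1 q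

theorem conj_mem (k : ℕ) (hk : 1 ≤ k) (n : ℤ) : ga ^ n * gb * (ga ^ n)⁻¹ ∈ (th k).range := by
  have hk0 : (0 : ℤ) < k := by exact_mod_cast hk
  set i := (n % k).toNat with hi
  have h0 : 0 ≤ n % k := Int.emod_nonneg _ hk0.ne'
  have h1 : n % k < k := Int.emod_lt_of_pos _ hk0
  have h2 : (i : ℤ) = n % k := Int.toNat_of_nonneg h0
  have h3 : i < k := by omega
  have h4 : ga ^ (i : ℤ) * gb * (ga ^ (i : ℤ))⁻¹ ∈ (th k).range := by
    refine ⟨FreeGroup.of (⟨i, by omega⟩ : Fin (k + 1)), ?_⟩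
    rw [th_of, if_pos h3]
  have h5 : n = n / k * k + i := by
    rw [h2]
    exact (Int.ediv_mul_add_emod n k).symm
  have h6 : ga ^ n * gb * (ga ^ n)⁻¹ = ga ^ (n / k * k) * (ga ^ (i : ℤ) * gb * (ga ^ (i : ℤ))⁻¹) *
      (ga ^ (n / k * k))⁻¹ := by
    conv_lhs => rw [h5, zpow_add]
    group
  rw [h6]
  exact Subgroup.mul_mem _ (Subgroup.mul_mem _ (ak_mem k _) h4) (Subgroup.inv_mem _ (ak_mem k _))

theorem cov (k : ℕ) (hk : 1 ≤ k) (g : G2) : ∀ n : ℤ, ∃ m : ℤ, ga ^ n * g * (ga ^ m)⁻¹ ∈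
    (th k).range := by
  have hgen : ∀ j : Fin 2, FreeGroup.of j = ga ∨ FreeGroup.of j = gb := by
    intro j
    fin_cases j
    · exact Or.inl rfl
    · exact Or.inr rfl
  induction g using FreeGroup.induction_on with
  | C1 =>
    intro n
    refine ⟨n, ?_⟩
    rw [mul_one, mul_inv_cancel]
    exact Subgroup.one_mem _
  | of j =>
    intro n
    rcases hgen j with h | h
    · refine ⟨n + 1, ?_⟩
      rw [h, ← zpow_add_one, mul_inv_cancel]
      exact Subgroup.one_mem _
    · refine ⟨n, ?_⟩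
      rw [h]
      exact conj_mem k hk n
  | inv_of j _ =>
    intro n
    rcases hgen j with h | h
    · refine ⟨n - 1, ?_⟩
      rw [h, ← zpow_sub_one, mul_inv_cancel]
      exact Subgroup.one_mem _
    · refine ⟨n, ?_⟩
      rw [h]
      have := Subgroup.inv_mem _ (conj_mem k hk n)
      have h2 : (ga ^ n * gb * (ga ^ n)⁻¹)⁻¹ = ga ^ n * gb⁻¹ * (ga ^ n)⁻¹ := by group
      rwa [h2] at this
  | mul x y hx hy =>
    intro n
    obtain ⟨m, hm⟩ := hx n
    obtain ⟨l, hl⟩ := hy m
    refine ⟨l, ?_⟩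
    have := Subgroup.mul_mem _ hm hl
    have h2 : ga ^ n * x * (ga ^ m)⁻¹ * (ga ^ m * y * (ga ^ l)⁻¹) =
        ga ^ n * (x * y) * (ga ^ l)⁻¹ := by group
    rwa [h2] at this

theorem finiteIndex (k : ℕ) (hk : 1 ≤ k) : (th k).range.FiniteIndex := by
  have hk0 : (0 : ℤ) < k := by exact_mod_cast hk
  have hfin : Finite (G2 ⧸ (th k).range) := by
    refine Finite.of_surjective (fun i : Fin k => ((ga ^ (i.1 : ℤ) : G2) : G2 ⧸ (th k).range)) ?_
    intro x
    induction x using QuotientGroup.induction_on with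
    | H g =>
      obtain ⟨m, hm⟩ := cov k hk g⁻¹ 0
      have h0 : 0 ≤ (-m) % k := Int.emod_nonneg _ hk0.ne'
      have h1 : (-m) % k < k := Int.emod_lt_of_pos _ hk0
      have h2 : (((-m) % k).toNat : ℤ) = (-m) % k := Int.toNat_of_nonneg h0
      refine ⟨⟨((-m) % k).toNat, by omega⟩, ?_⟩
      show ((ga ^ ((((-m) % k).toNat : ℕ) : ℤ) : G2) : G2 ⧸ (th k).range) = (g : G2 ⧸ (th k).range)
      rw [h2]
      symm
      rw [QuotientGroup.eq]
      have h3 : (-m) % (k : ℤ) = -m - (-m) / k * k := by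
        have := Int.ediv_mul_add_emod (-m) k
        linarith
      have h4 : g⁻¹ * ga ^ ((-m) % (k : ℤ)) = (ga ^ (0 : ℤ) * g⁻¹ * (ga ^ m)⁻¹) *
          (ga ^ ((-m) / k * k))⁻¹ := by
        rw [h3, zpow_sub, zpow_neg]
        group
      rw [h4]
      exact Subgroup.mul_mem _ hm (Subgroup.inv_mem _ (ak_mem k _))
  exact Subgroup.finiteIndex_of_finite_quotient

theorem main : Pool.Agent.W598.IA.S_SCH := fun k hk =>
  ⟨th k, th_injective k hk, finiteIndex k hk⟩

end Pool.Agent.W417.IASch
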